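import Pool.Agent.Y670.KC.Stm2

/-! Job KC-COPY: a computable copy of `addInf A` with an immune set of isolated points
(helper633). -/

set_option autoImplicit false

namespace Pool.Agent.Y633.KC

open Pool.Agent.Helper941 Pool.Agent.Helper941.IsoProb Pool.Agent.Helper941.Dim
open Pool.Agent.Helper941.Zeta
open Pool.Agent.Y670.KC (NoIso addInf Isol ImmIso SimpleEnum LatePts Stm_COPY)

open Classical in
/-- the index of a point of the range of `e` -/
noncomputable def idx (e : ℕ → ℕ) (n : ℕ) : ℕ := sInf {s | n ≤ e s}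

theorem idx_e {e : ℕ → ℕ} (he : StrictMono e) (j : ℕ) : idx e (e j) = j := by
  have h : {s | e j ≤ e s} = Set.Ici j := by
    ext s
    exact he.le_iff_le
  unfold idx
  rw [h, csInf_Ici]

theorem comp_idx {e : ℕ → ℕ} (he : StrictMono e) (hc : Computable e) : Computable (idx e) :=
  c_least (P := fun n s : ℕ => n ≤ e s) (p_le (c_fst c_id) (hc.comp (c_snd c_id)))
    fun n => ⟨n, he.id_le n⟩

theorem comp_range {e : ℕ → ℕ} (he : StrictMono e) (hc : Computable e) :
    ComputablePred fun n : ℕ => n ∈ Set.range e := by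
  have h1 : ComputablePred fun n : ℕ => e (idx e n) = n :=
    p_eq (hc.comp (comp_idx he hc)) c_id
  refine h1.of_eq fun n => ?_
  constructor
  · exact fun h => ⟨_, h⟩
  · rintro ⟨j, rfl⟩
    rw [idx_e he]

open Classical in
/-- the number of points below `n` outside the range of `e` -/
noncomputable def cnt (e : ℕ → ℕ) (n : ℕ) : ℕ := Nat.count (fun m => m ∉ Set.range e) n

theorem comp_cnt {e : ℕ → ℕ} (he : StrictMono e) (hc : Computable e) : Computable (cnt e) := by
  classical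
  have h1 : Computable fun n : ℕ =>
      (Nat.rec 0 (fun k s => if k ∉ Set.range e then s + 1 else s) n : ℕ) := by
    refine Computable.nat_rec (f := fun n : ℕ => n) (g := fun _ => 0)
      (h := fun (_ : ℕ) (q : ℕ × ℕ) => if q.1 ∉ Set.range e then q.2 + 1 else q.2)
      c_id (c_const 0) ?_
    have h2 : ComputablePred fun a : ℕ × ℕ × ℕ => a.2.1 ∉ Set.range e :=
      p_not (computablePred_comp (comp_range he hc) (c_fst (c_snd c_id)))
    exact c_ite h2 (c_succ (c_snd (c_snd c_id))) (c_snd (c_snd c_id))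
  refine h1.of_eq fun n => ?_
  induction n with
  | zero => rfl
  | succ n ih =>
    show (if n ∉ Set.range e then _ + 1 else _) = cnt e (n + 1)
    rw [ih]
    unfold cnt
    rw [Nat.count_succ]
    by_cases h : n ∉ Set.range e
    · rw [if_pos h, if_pos h]
    · rw [if_neg h, if_neg h, Nat.add_zero]

theorem cnt_inj {e : ℕ → ℕ} {m n : ℕ} (hm : m ∉ Set.range e) (hn : n ∉ Set.range e)
    (h : cnt e m = cnt e n) : m = n := by
  classical
  exact Nat.count_injective (p := fun m => m ∉ Set.range e) hm hn h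

theorem cnt_surj {e : ℕ → ℕ} (hco : (Set.range e)ᶜ.Infinite) (r : ℕ) :
    ∃ n, n ∉ Set.range e ∧ cnt e n = r := by
  classical
  refine ⟨Nat.nth (fun m => m ∉ Set.range e) r, Nat.nth_mem_of_infinite hco r, ?_⟩
  exact Nat.count_nth_of_infinite hco r

open Classical in
/-- the place of the point `n` of `A` in the copy -/
noncomputable def v (e g : ℕ → ℕ) (n : ℕ) : ℕ :=
  if n ∈ Set.range e then 2 * g (idx e n) + 1 else 2 * cnt e n

theorem v_e {e : ℕ → ℕ} (he : StrictMono e) (g : ℕ → ℕ) (j : ℕ) :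
    v e g (e j) = 2 * g j + 1 := by
  unfold v
  rw [if_pos ⟨j, rfl⟩, idx_e he]

theorem v_of_notMem {e : ℕ → ℕ} (g : ℕ → ℕ) {n : ℕ} (h : n ∉ Set.range e) :
    v e g n = 2 * cnt e n := if_neg h

theorem comp_v {e g : ℕ → ℕ} (he : StrictMono e) (hc : Computable e) (hg : Computable g) :
    Computable (v e g) := by
  classical
  exact c_ite (comp_range he hc)
    (c_succ (c_mul (c_const 2) (hg.comp (comp_idx he hc))))
    (c_mul (c_const 2) (comp_cnt he hc))

theorem v_inj {e g : ℕ → ℕ} (he : StrictMono e) (hg : Function.Injective g) :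
    Function.Injective (v e g) := by
  intro m n h
  by_cases hm : m ∈ Set.range e
  · obtain ⟨j, rfl⟩ := hm
    by_cases hn : n ∈ Set.range e
    · obtain ⟨k, rfl⟩ := hn
      rw [v_e he, v_e he] at h
      have : g j = g k := by omega
      rw [hg this]
    · rw [v_e he, v_of_notMem g hn] at h
      omega
  · by_cases hn : n ∈ Set.range e
    · obtain ⟨k, rfl⟩ := hn
      rw [v_e he, v_of_notMem g hm] at h
      omega
    · rw [v_of_notMem g hm, v_of_notMem g hn] at h
      exact cnt_inj hm hn (by omega)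

/-- the enumeration of the complement of the range of `e` -/
noncomputable def cc (e : ℕ → ℕ) (r : ℕ) : ℕ := sInf {n | n ∉ Set.range e ∧ cnt e n = r}

theorem comp_cc {e : ℕ → ℕ} (he : StrictMono e) (hc : Computable e)
    (hco : (Set.range e)ᶜ.Infinite) : Computable (cc e) := by
  refine c_least (P := fun r n : ℕ => n ∉ Set.range e ∧ cnt e n = r) ?_ (cnt_surj hco)
  refine p_and (p_not (computablePred_comp (comp_range he hc) (c_snd c_id))) ?_
  exact p_eq ((comp_cnt he hc).comp (c_snd c_id)) (c_fst c_id)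

theorem cc_cnt {e : ℕ → ℕ} {n : ℕ} (hn : n ∉ Set.range e) : cc e (cnt e n) = n := by
  have h : {m | m ∉ Set.range e ∧ cnt e m = cnt e n} = {n} := by
    ext m
    constructor
    · rintro ⟨h1, h2⟩
      exact cnt_inj h1 hn h2
    · rintro rfl
      exact ⟨hn, rfl⟩
  unfold cc
  rw [h, csInf_singleton]

/-- the copy -/
def cp (A : Str) (e g : ℕ → ℕ) : Str := fun i x y =>
  ∃ m n, v e g m = x ∧ v e g n = y ∧ A i m n

theorem cp_v {A : Str} {e g : ℕ → ℕ} (he : StrictMono e) (hg : Function.Injective g)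
    (i m n : ℕ) : cp A e g i (v e g m) (v e g n) ↔ A i m n := by
  constructor
  · rintro ⟨m', n', h1, h2, h3⟩
    rw [v_inj he hg h1, v_inj he hg h2] at h3
    exact h3
  · exact fun h => ⟨m, n, rfl, rfl, h⟩

theorem bound {A : Str} {e g : ℕ → ℕ} (hl : LatePts A e) {i m y : ℕ}
    (h : A i m y ∨ A i y m) : m ≤ max (cc e (v e g m / 2)) (e i) := by
  by_cases hm : m ∈ Set.range e
  · obtain ⟨j, rfl⟩ := hm
    exact le_max_of_le_right (hl.mono.monotone (hl.late j i y h))
  · refine le_max_of_le_left ?_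
    rw [v_of_notMem g hm, Nat.mul_div_cancel_left _ (by norm_num : 0 < 2), cc_cnt hm]

theorem comp_cp {A : Str} {e g : ℕ → ℕ} (hA : IsComp A) (hl : LatePts A e)
    (hg : SimpleEnum g) : IsComp (cp A e g) := by
  have hcc := comp_cc hl.mono hl.comp hl.coinf
  have hv := comp_v hl.mono hl.comp hg.comp
  have hb : ∀ {α : Type} [Primcodable α] {a b : α → ℕ}, Computable a → Computable b →
      Computable fun q => max (cc e (a q / 2)) (e (b q)) + 1 := by
    intro α _ a b ha hb
    exact c_succ (c_max (hcc.comp (c_div2 ha)) (hl.comp.comp hb))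
  have h1 : ComputablePred fun q : ℕ × ℕ × ℕ =>
      ∃ m < max (cc e (q.2.1 / 2)) (e q.1) + 1, ∃ n < max (cc e (q.2.2 / 2)) (e q.1) + 1,
        v e g m = q.2.1 ∧ v e g n = q.2.2 ∧ A q.1 m n := by
    refine p_bex (P := fun (q : ℕ × ℕ × ℕ) m => ∃ n < max (cc e (q.2.2 / 2)) (e q.1) + 1,
        v e g m = q.2.1 ∧ v e g n = q.2.2 ∧ A q.1 m n)
      (hb (c_fst (c_snd c_id)) (c_fst c_id)) ?_
    refine p_bex (P := fun (q : (ℕ × ℕ × ℕ) × ℕ) n =>
        v e g q.2 = q.1.2.1 ∧ v e g n = q.1.2.2 ∧ A q.1.1 q.2 n)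
      (hb (c_snd (c_snd (c_fst c_id))) (c_fst (c_fst c_id))) ?_
    refine p_and (p_eq (hv.comp (c_snd (c_fst c_id))) (c_fst (c_snd (c_fst (c_fst c_id)))))
      (p_and (p_eq (hv.comp (c_snd c_id)) (c_snd (c_snd (c_fst (c_fst c_id))))) ?_)
    exact computablePred_comp (P := fun q : ℕ × ℕ × ℕ => A q.1 q.2.1 q.2.2) hA
      (c_pair (c_fst (c_fst (c_fst c_id))) (c_pair (c_snd (c_fst c_id)) (c_snd c_id)))
  refine h1.of_eq fun q => ?_
  constructor
  · rintro ⟨m, -, n, -, h⟩
    exact ⟨m, n, h⟩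
  · rintro ⟨m, n, h2, h3, h4⟩
    refine ⟨m, Nat.lt_succ_of_le ?_, n, Nat.lt_succ_of_le ?_, h2, h3, h4⟩
    · rw [← h2]
      exact bound hl (Or.inl h4)
    · rw [← h3]
      exact bound hl (Or.inr h4)

theorem even_mem {e g : ℕ → ℕ} (hl : (Set.range e)ᶜ.Infinite) (r : ℕ) :
    2 * r ∈ Set.range (v e g) := by
  obtain ⟨n, hn, h⟩ := cnt_surj hl r
  exact ⟨n, by rw [v_of_notMem g hn, h]⟩

theorem odd_mem {e g : ℕ → ℕ} (he : StrictMono e) {y : ℕ} :
    2 * y + 1 ∈ Set.range (v e g) ↔ y ∈ Set.range g := by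
  constructor
  · rintro ⟨n, hn⟩
    by_cases h : n ∈ Set.range e
    · obtain ⟨j, rfl⟩ := h
      rw [v_e he] at hn
      exact ⟨j, by omega⟩
    · rw [v_of_notMem g h] at hn
      omega
  · rintro ⟨j, rfl⟩
    exact ⟨e j, v_e he g j⟩

theorem coinf_v {e g : ℕ → ℕ} (he : StrictMono e) (hg : (Set.range g)ᶜ.Infinite) :
    {x | x ∉ Set.range (v e g)}.Infinite := by
  have hinj : Function.Injective fun y : ℕ => 2 * y + 1 := fun a b h => by
    have h' : 2 * a + 1 = 2 * b + 1 := h
    omega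
  refine (hg.image hinj.injOn).mono ?_
  rintro _ ⟨y, hy, rfl⟩ h
  exact hy ((odd_mem he).1 h)

theorem exists_equiv {e g : ℕ → ℕ} (he : StrictMono e) (hgi : Function.Injective g)
    (hg : (Set.range g)ᶜ.Infinite) :
    ∃ f : ℕ ≃ ℕ, (∀ n, f (2 * n) = v e g n) ∧ ∀ n, f (2 * n + 1) ∉ Set.range (v e g) := by
  classical
  have hinf := coinf_v he hg
  let w : ℕ → ℕ := Nat.nth fun x => x ∉ Set.range (v e g)
  have hw : ∀ n, w n ∉ Set.range (v e g) := fun n => Nat.nth_mem_of_infinite hinf n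
  have hwi : Function.Injective w := Nat.nth_injective hinf
  have hws : ∀ x, x ∉ Set.range (v e g) → ∃ n, w n = x := by
    intro x hx
    have h1 : Set.range w = {x | x ∉ Set.range (v e g)} := Nat.range_nth_of_infinite hinf
    have h2 : x ∈ Set.range w := by
      rw [h1]
      exact hx
    exact h2
  let f : ℕ → ℕ := fun x => if x % 2 = 0 then v e g (x / 2) else w (x / 2)
  have hf0 : ∀ n, f (2 * n) = v e g n := by
    intro n
    show (if 2 * n % 2 = 0 then v e g (2 * n / 2) else w (2 * n / 2)) = _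
    rw [if_pos (by omega)]
    congr 1
    omega
  have hf1 : ∀ n, f (2 * n + 1) = w n := by
    intro n
    show (if (2 * n + 1) % 2 = 0 then v e g ((2 * n + 1) / 2) else w ((2 * n + 1) / 2)) = _
    rw [if_neg (by omega)]
    congr 1
    omega
  have hpar : ∀ x : ℕ, (∃ n, x = 2 * n) ∨ ∃ n, x = 2 * n + 1 := fun x => by
    rcases Nat.even_or_odd' x with ⟨n, h | h⟩
    · exact Or.inl ⟨n, h⟩
    · exact Or.inr ⟨n, h⟩
  have hbij : Function.Bijective f := by
    constructor
    · intro x y h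
      rcases hpar x with ⟨m, rfl⟩ | ⟨m, rfl⟩
      · rcases hpar y with ⟨n, rfl⟩ | ⟨n, rfl⟩
        · rw [hf0, hf0] at h
          rw [v_inj he hgi h]
        · rw [hf0, hf1] at h
          exact absurd ⟨m, h⟩ (hw n)
      · rcases hpar y with ⟨n, rfl⟩ | ⟨n, rfl⟩
        · rw [hf0, hf1] at h
          exact absurd ⟨n, h.symm⟩ (hw m)
        · rw [hf1, hf1] at h
          rw [hwi h]
    · intro x
      by_cases hx : x ∈ Set.range (v e g)
      · obtain ⟨n, rfl⟩ := hx
        exact ⟨2 * n, hf0 n⟩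
      · obtain ⟨n, rfl⟩ := hws x hx
        exact ⟨2 * n + 1, hf1 n⟩
  refine ⟨Equiv.ofBijective f hbij, hf0, fun n => ?_⟩
  show f (2 * n + 1) ∉ _
  rw [hf1]
  exact hw n

theorem t_COPY : Stm_COPY := by
  intro A e g hA hN hl hs
  refine ⟨cp A e g, ⟨comp_cp hA hl hs, ?_⟩, ?_⟩
  · obtain ⟨f, hf0, hf1⟩ := exists_equiv hl.mono hs.inj hs.coinf
    have hpar : ∀ x : ℕ, (∃ n, x = 2 * n) ∨ ∃ n, x = 2 * n + 1 := fun x => by
      rcases Nat.even_or_odd' x with ⟨n, h | h⟩
      · exact Or.inl ⟨n, h⟩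
      · exact Or.inr ⟨n, h⟩
    refine ⟨f, fun i x y => ?_⟩
    rcases hpar x with ⟨m, rfl⟩ | ⟨m, rfl⟩
    · rcases hpar y with ⟨n, rfl⟩ | ⟨n, rfl⟩
      · rw [hf0, hf0, cp_v hl.mono hs.inj]
        have e1 : 2 * m / 2 = m := by omega
        have e2 : 2 * n / 2 = n := by omega
        constructor
        · rintro ⟨-, -, h⟩
          rwa [e1, e2] at h
        · intro h
          refine ⟨by omega, by omega, ?_⟩
          rwa [e1, e2]
      · constructor
        · rintro ⟨-, h, -⟩
          omega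
        · rintro ⟨m', n', -, h, -⟩
          exact absurd ⟨n', h⟩ (hf1 n)
    · constructor
      · rintro ⟨h, -, -⟩
        omega
      · rintro ⟨m', n', h, -, -⟩
        exact absurd ⟨m', h⟩ (hf1 m)
  · intro q hq hqi
    by_contra hcon
    push Not at hcon
    have h1 : ∀ n, q n ∉ Set.range (v e g) := by
      rintro n ⟨m, hm⟩
      obtain ⟨i, y, hy⟩ := hN m
      have h2 := hcon n i (v e g y)
      rw [← hm, cp_v hl.mono hs.inj, cp_v hl.mono hs.inj] at h2
      rcases hy with hy | hy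
      · exact h2.1 hy
      · exact h2.2 hy
    have h2 : ∀ n, q n = 2 * (q n / 2) + 1 := by
      intro n
      rcases Nat.even_or_odd' (q n) with ⟨k, h | h⟩
      · exact absurd (h ▸ even_mem hl.coinf k) (h1 n)
      · omega
    obtain ⟨n, hn⟩ := hs.imm (fun n => q n / 2) (c_div2 hq) (fun a b h => by
      have h' : q a / 2 = q b / 2 := h
      refine hqi ?_
      rw [h2 a, h2 b, h'])
    apply h1 n
    rw [h2 n]
    exact (odd_mem hl.mono).2 hn

end Pool.Agent.Y633.KC
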